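import Pool.Agent.helper32.TRI.Spec

/-!
# Row tr:OR4 of MP_561ff4_al: the order of a word (adapted from helper92, OR7)
-/

set_option autoImplicit false

open Finset

namespace Pool.Agent.TRI

open Pool.Agent.EXC

/-- the linear bijections which fix `v` -/
def OR4_S (K : Type) [Field K] (v : Lm C4 K) : Subgroup (Lm C4 K ≃ₗ[K] Lm C4 K) where
  carrier := {g | g v = v}
  one_mem' := rfl
  mul_mem' := by
    intro a b ha hb
    show a (b v) = v
    rw [Set.mem_setOf_eq] at ha hb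
    rw [hb, ha]
  inv_mem' := by
    intro a ha
    have ha' : a v = v := ha
    show a.symm v = v
    rw [LinearEquiv.symm_apply_eq, ha']

theorem OR4 (hWA4 : WA4_stmt) (hEM4 : EM4_stmt) : OR4_stmt := by
  intro K _ χ c hc0 r l hr hl hi N hN
  have h1 : ∀ s : (Fin 4 → ℤ) × (Fin 24 → ℤ), gw4 χ c l (ez4 χ c s) = ez4 χ c (az4 l s) := (hWA4 K χ c hc0 l l).2.2.2
  obtain ⟨Z, hZ⟩ : ∃ Z, Z = gw4 χ c l := ⟨_, rfl⟩
  rw [← hZ] at h1 hN
  have h2 : ∀ (k : ℕ) (s : (Fin 4 → ℤ) × (Fin 24 → ℤ)), (Z ^ k) (ez4 χ c s) = ez4 χ c ((az4 l)^[k] s) := by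
    intro k
    induction k with
    | zero =>
      intro s
      rw [pow_zero]
      rfl
    | succ k ih =>
      intro s
      rw [pow_succ, LinearEquiv.mul_apply, h1, ih, Function.iterate_succ_apply]
  have h3 : (Z ^ r) (ez4 χ c e4v) = ez4 χ c e4v := by
    rw [h2, hl]
  have h4 : Z (ez4 χ c e4v) ≠ ez4 χ c e4v := by
    intro h
    rw [h1] at h
    obtain ⟨h5, h6⟩ := hEM4 K _ _ _ _ h
    obtain ⟨i, hi⟩ := hi
    have h9 : (((co4 (az4 l e4v) i - co4 e4v i : ℤ)) : K) = 0 := by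
      rcases i with i | i
      · have h7 := congrFun h5 i
        show (((az4 l e4v).1 i - e4v.1 i : ℤ) : K) = 0
        rw [Int.cast_sub, h7, sub_self]
      · have h7 := congrFun h6 i
        have h8 : c ^ (cv4 χ (lt4 i)) ≠ 0 := zpow_ne_zero _ hc0
        have h10 : (((az4 l e4v).2 i : ℤ) : K) = (e4v.2 i : K) := mul_right_cancel₀ h8 h7
        show (((az4 l e4v).2 i - e4v.2 i : ℤ) : K) = 0
        rw [Int.cast_sub, h10, sub_self]
    rcases hi with hi | hi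
    · rw [hi] at h9
      simp at h9
    · rw [hi] at h9
      simp at h9
  have h5 : (Z ^ N) (ez4 χ c e4v) = ez4 χ c e4v := by
    rw [hN]
    rfl
  by_contra hdvd
  apply h4
  have hcop : Nat.Coprime r N := (Nat.Prime.coprime_iff_not_dvd hr).2 hdvd
  have m1 : Z ^ r ∈ OR4_S K (ez4 χ c e4v) := h3
  have m2 : Z ^ N ∈ OR4_S K (ez4 χ c e4v) := h5
  have m3 : Z ∈ OR4_S K (ez4 χ c e4v) := by
    have hb := Nat.gcd_eq_gcd_ab r N
    rw [hcop] at hb
    have : Z = (Z ^ r) ^ (Nat.gcdA r N) * (Z ^ N) ^ (Nat.gcdB r N) := by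
      rw [← zpow_natCast Z r, ← zpow_natCast Z N, ← zpow_mul, ← zpow_mul, ← zpow_add]
      have h6 : (r : ℤ) * Nat.gcdA r N + (N : ℤ) * Nat.gcdB r N = 1 := by
        rw [← hb]
        rfl
      rw [h6, zpow_one]
    rw [this]
    exact (OR4_S K (ez4 χ c e4v)).mul_mem ((OR4_S K (ez4 χ c e4v)).zpow_mem m1 _) ((OR4_S K (ez4 χ c e4v)).zpow_mem m2 _)
  exact m3

end Pool.Agent.TRI
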